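import Pool.Agent.P8H81.LP.Stm2

/-!
Project LPB, package MRK: Markov inequality for the weighted time of the walk outside the boxes.
-/

set_option autoImplicit false

open Finset

namespace Pool.Agent.P8H54.LPB

open Pool.Agent.P8H81.LP

theorem EV_mono {N : ℕ} {F G : (Fin N → Fin 2 × Bool) → ℝ} (h : ∀ σ, F σ ≤ G σ) :
    EV N F ≤ EV N G := by
  unfold EV
  exact mul_le_mul_of_nonneg_left (sum_le_sum fun σ _ => h σ) (by positivity)

theorem EV_const (N : ℕ) (c : ℝ) : EV N (fun _ => c) = c := by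
  unfold EV
  rw [sum_const, card_univ, Fintype.card_fun, Fintype.card_prod, Fintype.card_fin, Fintype.card_bool,
    Fintype.card_fin, nsmul_eq_mul]
  push_cast
  rw [← mul_assoc, inv_mul_cancel₀ (by positivity), one_mul]

theorem EV_add {N : ℕ} (F G : (Fin N → Fin 2 × Bool) → ℝ) :
    EV N (fun σ => F σ + G σ) = EV N F + EV N G := by
  unfold EV
  rw [sum_add_distrib, mul_add]

theorem EV_mul {N : ℕ} (c : ℝ) (F : (Fin N → Fin 2 × Bool) → ℝ) :
    EV N (fun σ => c * F σ) = c * EV N F := by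
  unfold EV
  rw [← mul_sum]
  ring

theorem EV_sum {N : ℕ} {ι : Type} (s : Finset ι) (F : ι → (Fin N → Fin 2 × Bool) → ℝ) :
    EV N (fun σ => ∑ i ∈ s, F i σ) = ∑ i ∈ s, EV N (F i) := by
  unfold EV
  rw [sum_comm, mul_sum]

theorem mrk : S_MRK := by
  intro hC N B hB g hg t ht
  set S : ℝ := ∑ n ∈ Icc 1 N, g n with hS
  have hS0 : 0 ≤ S := sum_nonneg fun n _ => hg n
  have hBr : (1 : ℝ) ≤ B := by exact_mod_cast hB
  rcases hS0.eq_or_lt with h0 | hpos
  · have h1 : ∀ n ∈ Icc 1 N, g n = 0 := (sum_eq_zero_iff_of_nonneg fun n _ => hg n).1 h0.symm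
    have h2 : (fun σ : Fin N → Fin 2 × Bool => Real.exp (-t * ∑ n ∈ Icc 1 N, g n *
        (if pos σ n ∈ box (rad B n) then 1 else 0))) = fun _ => 1 := by
      funext σ
      rw [sum_eq_zero fun n hn => by rw [h1 n hn, zero_mul], mul_zero, Real.exp_zero]
    rw [h2, EV_const, ← h0]
    simp only [mul_zero, zero_div, Real.exp_zero]
    have : 0 ≤ 2 / (B : ℝ) ^ 2 := by positivity
    linarith
  · have hpt : ∀ σ : Fin N → Fin 2 × Bool, Real.exp (-t * ∑ n ∈ Icc 1 N, g n *
        (if pos σ n ∈ box (rad B n) then 1 else 0)) ≤ Real.exp (-t * S / 2) +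
        2 / S * ∑ n ∈ Icc 1 N, g n * (if pos σ n ∈ box (rad B n) then 0 else 1) := by
      intro σ
      have e1 : ∑ n ∈ Icc 1 N, g n * (if pos σ n ∈ box (rad B n) then (1 : ℝ) else 0) +
          ∑ n ∈ Icc 1 N, g n * (if pos σ n ∈ box (rad B n) then (0 : ℝ) else 1) = S := by
        rw [← sum_add_distrib, hS]
        refine sum_congr rfl fun n _ => ?_
        split_ifs <;> ring
      have e2 : 0 ≤ ∑ n ∈ Icc 1 N, g n * (if pos σ n ∈ box (rad B n) then (0 : ℝ) else 1) :=
        sum_nonneg fun n _ => mul_nonneg (hg n) (by split_ifs <;> norm_num)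
      have e3 : 0 ≤ ∑ n ∈ Icc 1 N, g n * (if pos σ n ∈ box (rad B n) then (1 : ℝ) else 0) :=
        sum_nonneg fun n _ => mul_nonneg (hg n) (by split_ifs <;> norm_num)
      generalize ∑ n ∈ Icc 1 N, g n * (if pos σ n ∈ box (rad B n) then (1 : ℝ) else 0) = I at *
      generalize ∑ n ∈ Icc 1 N, g n * (if pos σ n ∈ box (rad B n) then (0 : ℝ) else 1) = O at *
      by_cases h : S / 2 ≤ I
      · have h1 : Real.exp (-t * I) ≤ Real.exp (-t * S / 2) := by
          apply Real.exp_le_exp.2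
          nlinarith
        have h2 : 0 ≤ 2 / S * O := by positivity
        linarith
      · push Not at h
        have h1 : Real.exp (-t * I) ≤ 1 := by
          rw [Real.exp_le_one_iff]
          nlinarith
        have h2 : 1 ≤ 2 / S * O := by
          rw [div_mul_eq_mul_div, le_div_iff₀ hpos]
          linarith
        have h3 : 0 < Real.exp (-t * S / 2) := Real.exp_pos _
        linarith
    refine (EV_mono hpt).trans ?_
    rw [EV_add, EV_const, EV_mul, EV_sum]
    have h5 : ∑ n ∈ Icc 1 N, EV N (fun σ : Fin N → Fin 2 × Bool =>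
        g n * (if pos σ n ∈ box (rad B n) then 0 else 1)) ≤ S * (1 / (B : ℝ) ^ 2) := by
      rw [hS, sum_mul]
      refine sum_le_sum fun n hn => ?_
      rw [EV_mul]
      exact mul_le_mul_of_nonneg_left (hC N B n hB (mem_Icc.1 hn).1 (mem_Icc.1 hn).2) (hg n)
    have h6 : 2 / S * (S * (1 / (B : ℝ) ^ 2)) = 2 / (B : ℝ) ^ 2 := by
      field_simp
    have h7 := mul_le_mul_of_nonneg_left h5 (by positivity : 0 ≤ 2 / S)
    rw [h6] at h7
    linarith

end Pool.Agent.P8H54.LPB
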